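import Mathlib
import Pool.Agent.T6.H94.NoThreeSeq

/-!
# MP_6d8139_co: integer sequences without three collinear points on the graph

For real `x ≥ 1`, `N x` is the largest `n` for which there are integers `0 < a 1 < … < a n ≤ x` such
that no three of the points `(j, a j)` are collinear.  We show that
`N x ≥ c (x / log x) ^ (2/3)` for all `x ≥ 2`.  (The starting result for this problem is
`N x ≥ c x ^ (4/7)`.)

Proof.  Let `D` be about `200 √n log n` and `m = n / D`, and look at the sequences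
`a j = D j + ⌊j ^ 2 / m⌋ + b j` with `0 ≤ b j < D`, which are increasing and at most about `3 D n`.
Let `i < j < k`, `s = j - i`, `t = k - j`.  If the points over `i`, `j`, `k` are collinear then
`s t ≤ m D ≤ n`, since the curvature of `j ^ 2 / m` exceeds the variation of `b` otherwise.  With
`g = gcd (s, t)`, `s = g s'`, `t = g t'`, collinearity means `a j - a i = s' u`, `a k - a j = t' u` for
an integer `u`, so that for random `b` it has a probability of at most
`g / (D max (s, t)) + 1 / D ^ 2`.  The sum of these bounds over all triples with `s t ≤ n` that contain a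
given column is at most `3 (6 √n (1 + log n) / D + n (1 + log n) / D ^ 2) ≤ 1/8`, and the local
lemma (in the form of a counting argument, `Pool.Agent.T6.H94.LLL.exists_good`) applies.
-/

set_option autoImplicit false

namespace Pool.Agent.Results.MP_6d8139_co.TwoThirds

/-- `a 1 < a 2 < … < a n` are positive integers, at most `x`, such that no three of the points
`(j, a j)`, `1 ≤ j ≤ n`, are collinear. -/
def Valid (x : ℝ) (n : ℕ) (a : ℕ → ℤ) : Prop :=
  (∀ j, 1 ≤ j → j ≤ n → 0 < a j ∧ (a j : ℝ) ≤ x) ∧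
  (∀ i j, 1 ≤ i → i < j → j ≤ n → a i < a j) ∧
  ∀ i j k, 1 ≤ i → i < j → j < k → k ≤ n →
    ¬ Collinear ℝ ({((i : ℝ), (a i : ℝ)), ((j : ℝ), (a j : ℝ)), ((k : ℝ), (a k : ℝ))} : Set (ℝ × ℝ))

/-- `N x` is the largest `n` for which there is such a sequence. -/
noncomputable def N (x : ℝ) : ℕ := sSup {n : ℕ | ∃ a : ℕ → ℤ, Valid x n a}

lemma le_of_valid {x : ℝ} {n : ℕ} {a : ℕ → ℤ} (h : Valid x n a) : n ≤ ⌊x⌋₊ := by
  obtain ⟨h1, h2, _⟩ := h
  have h3 : ∀ j : ℕ, 1 ≤ j → j ≤ n → (j : ℤ) ≤ a j := by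
    intro j hj
    induction j, hj using Nat.le_induction with
    | base => intro hn; have := (h1 1 le_rfl hn).1; push_cast; omega
    | succ j hj ih =>
      intro hn
      have := ih (by omega)
      have := h2 j (j + 1) hj (by omega) hn
      push_cast
      omega
  rcases Nat.eq_zero_or_pos n with rfl | hn
  · exact Nat.zero_le _
  apply Nat.le_floor
  have h4 := h3 n hn le_rfl
  have h5 := (h1 n hn le_rfl).2
  have h6 : (n : ℝ) ≤ (a n : ℝ) := by exact_mod_cast h4
  linarith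

lemma le_N {x : ℝ} {n : ℕ} {a : ℕ → ℤ} (h : Valid x n a) : n ≤ N x :=
  le_csSup ⟨⌊x⌋₊, fun _ ⟨_, hb⟩ => le_of_valid hb⟩ ⟨a, h⟩

lemma one_le_N {x : ℝ} (hx : 1 ≤ x) : 1 ≤ N x := by
  apply le_N (a := fun _ => 1)
  refine ⟨fun j _ _ => ⟨one_pos, by simpa using hx⟩, fun i j h1 h2 h3 => by omega,
    fun i j k h1 h2 h3 h4 => by omega⟩

lemma not_collinear {a : ℕ → ℤ} {i j k : ℕ} (h : ((k : ℤ) - j) * (a j - a i) ≠
    ((j : ℤ) - i) * (a k - a j)) :
    ¬ Collinear ℝ ({((i : ℝ), (a i : ℝ)), ((j : ℝ), (a j : ℝ)), ((k : ℝ), (a k : ℝ))} :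
      Set (ℝ × ℝ)) := by
  intro hc
  apply h
  rw [collinear_iff_of_mem (p₀ := ((j : ℝ), (a j : ℝ))) (by simp)] at hc
  obtain ⟨v, hv⟩ := hc
  obtain ⟨r, hr⟩ := hv ((i : ℝ), (a i : ℝ)) (by simp)
  obtain ⟨r', hr'⟩ := hv ((k : ℝ), (a k : ℝ)) (by simp)
  have h1 := congrArg Prod.fst hr
  have h2 := congrArg Prod.snd hr
  have h3 := congrArg Prod.fst hr'
  have h4 := congrArg Prod.snd hr'
  simp only [vadd_eq_add, Prod.fst_add, Prod.snd_add, Prod.smul_fst, Prod.smul_snd,
    smul_eq_mul] at h1 h2 h3 h4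
  have h5 : ((k : ℝ) - j) * ((a j : ℝ) - a i) = ((j : ℝ) - i) * ((a k : ℝ) - a j) := by
    rw [h1, h2, h3, h4]
    ring
  exact_mod_cast h5

lemma sqrt_big {n : ℕ} (hn : 10 ^ 8 ≤ n) : 402 * (1 + Real.log n) ≤ Real.sqrt n := by
  have hnR : (10 : ℝ) ^ 8 ≤ n := by exact_mod_cast hn
  have hn0 : (0 : ℝ) < n := by linarith [pow_pos (show (0 : ℝ) < 10 by norm_num) 8]
  set y := Real.sqrt (Real.sqrt n) with hy
  have hs : (10 : ℝ) ^ 4 ≤ Real.sqrt n := by
    rw [Real.le_sqrt' (by positivity)]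
    linarith
  have hy100 : (100 : ℝ) ≤ y := by
    rw [hy, Real.le_sqrt' (by norm_num)]
    linarith
  have hyy : y ^ 2 = Real.sqrt n := Real.sq_sqrt (Real.sqrt_nonneg _)
  have hy4 : y ^ 4 = n := by
    have : y ^ 4 = (y ^ 2) ^ 2 := by ring
    rw [this, hyy, Real.sq_sqrt hn0.le]
  have hlog : Real.log n = 4 * Real.log y := by
    rw [← hy4, Real.log_pow]; norm_num
  have h1 : Real.log y ≤ Real.log 128 + (y / 128 - 1) := by
    have h2 := Real.log_le_sub_one_of_pos (show 0 < y / 128 by positivity)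
    rw [Real.log_div (by positivity) (by norm_num)] at h2
    linarith
  have h3 : Real.log 128 ≤ 4.86 := by
    have : (128 : ℝ) = 2 ^ 7 := by norm_num
    rw [this, Real.log_pow]
    have := Real.log_two_lt_d9
    push_cast
    linarith
  rw [hlog, ← hyy]
  nlinarith

open Pool.Agent.T6.H94.NoThree in
lemma exists_valid {n : ℕ} (hn : 10 ^ 8 ≤ n) {x : ℝ}
    (hx : 804 * ((n : ℝ) * Real.sqrt n * (1 + Real.log n)) ≤ x) : ∃ a : ℕ → ℤ, Valid x n a := by
  have hn1 : 1 ≤ n := le_trans (by norm_num) hn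
  have hnR1 : (1 : ℝ) ≤ n := by exact_mod_cast hn1
  have hn0 : (0 : ℝ) < n := by linarith
  have hL : 0 ≤ Real.log n := Real.log_nonneg hnR1
  set L := 1 + Real.log n with hLdef
  have hL1 : 1 ≤ L := by rw [hLdef]; linarith
  have hS1 : 1 ≤ Real.sqrt n := by rw [Real.one_le_sqrt]; exact hnR1
  have hSS : Real.sqrt n * Real.sqrt n = n := Real.mul_self_sqrt hn0.le
  set D := ⌈200 * (Real.sqrt n * L)⌉₊ with hD
  have hDlow : 200 * (Real.sqrt n * L) ≤ D := Nat.le_ceil _
  have hDup : (D : ℝ) ≤ 201 * (Real.sqrt n * L) := by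
    have h1 := (Nat.ceil_lt_add_one (show 0 ≤ 200 * (Real.sqrt n * L) by positivity)).le
    have h2 : (1 : ℝ) ≤ Real.sqrt n * L := one_le_mul_of_one_le_of_one_le hS1 hL1
    linarith
  have hD0 : 0 < D := Nat.ceil_pos.2 (by positivity)
  have hDR : (0 : ℝ) < D := by exact_mod_cast hD0
  have hbig := sqrt_big hn
  have h2D : 2 * D ≤ n := by
    have : (2 : ℝ) * D ≤ n := by nlinarith
    exact_mod_cast this
  set m := n / D with hm
  have hm0 : 0 < m := Nat.div_pos (by omega) hD0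
  have hmD : m * D ≤ n := Nat.div_mul_le_self _ _
  have hmD1 : 1 ≤ m * D := Nat.mul_pos hm0 hD0
  have hmDR : ((m * D : ℕ) : ℝ) ≤ n := by exact_mod_cast hmD
  have hmDR1 : (1 : ℝ) ≤ ((m * D : ℕ) : ℝ) := by exact_mod_cast hmD1
  have hlog : 1 + Real.log ((m * D : ℕ) : ℝ) ≤ L := by
    rw [hLdef]
    have := Real.log_le_log (by linarith) hmDR
    linarith
  have hlog0 : 0 ≤ 1 + Real.log ((m * D : ℕ) : ℝ) := by
    have := Real.log_nonneg hmDR1
    linarith
  have hcond : 3 * ((6 * Real.sqrt (m * D : ℕ) * (1 + Real.log (m * D : ℕ))) / D +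
      ((m * D : ℕ) * (1 + Real.log (m * D : ℕ))) / (D : ℝ) ^ 2) ≤ 1 / 8 := by
    have h1 : (6 * Real.sqrt (m * D : ℕ) * (1 + Real.log (m * D : ℕ))) / D ≤ 6 / 200 := by
      rw [div_le_div_iff₀ hDR (by norm_num)]
      have h2 : Real.sqrt (m * D : ℕ) ≤ Real.sqrt n := Real.sqrt_le_sqrt hmDR
      have h3 : Real.sqrt (m * D : ℕ) * (1 + Real.log (m * D : ℕ)) ≤ Real.sqrt n * L :=
        mul_le_mul h2 hlog hlog0 (Real.sqrt_nonneg _)
      nlinarith
    have h4 : ((m * D : ℕ) * (1 + Real.log (m * D : ℕ))) / (D : ℝ) ^ 2 ≤ 1 / 40000 := by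
      rw [div_le_div_iff₀ (by positivity) (by norm_num)]
      have h5 : ((m * D : ℕ) : ℝ) * (1 + Real.log (m * D : ℕ)) ≤ n * L :=
        mul_le_mul hmDR hlog hlog0 hn0.le
      have h6 : (200 * (Real.sqrt n * L)) ^ 2 ≤ (D : ℝ) ^ 2 := by
        apply pow_le_pow_left₀ (by positivity) hDlow
      have h7 : (200 * (Real.sqrt n * L)) ^ 2 = 40000 * (n * L * L) := by
        calc (200 * (Real.sqrt n * L)) ^ 2 = 40000 * ((Real.sqrt n * Real.sqrt n) * L * L) := by ring
          _ = 40000 * (n * L * L) := by rw [hSS]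
      have h8 : (n : ℝ) * L ≤ n * L * L := by
        have : 0 ≤ (n : ℝ) * L := by positivity
        nlinarith
      linarith
    linarith
  obtain ⟨a, ha1, ha2, ha3, ha4⟩ := exists_seq n m D hm0 hD0 hcond
  have hup : ((D * n + n ^ 2 / m + D : ℕ) : ℝ) ≤ x := by
    have h1 : (n : ℝ) < (m + 1) * D := by
      have : n < (m + 1) * D := by
        have := Nat.lt_mul_div_succ n hD0
        rw [mul_comm]; exact this
      exact_mod_cast this
    have hmR : (0 : ℝ) < m := by exact_mod_cast hm0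
    have h2DR : (2 : ℝ) * D ≤ n := by exact_mod_cast h2D
    have h2 : (n : ℝ) ≤ 2 * (m * D) := by nlinarith
    have h3 : ((n ^ 2 / m : ℕ) : ℝ) ≤ 2 * (D * n) := by
      calc ((n ^ 2 / m : ℕ) : ℝ) ≤ ((n ^ 2 : ℕ) : ℝ) / m := Nat.cast_div_le
        _ = (n : ℝ) ^ 2 / m := by push_cast; rfl
        _ ≤ 2 * (D * n) := by
            rw [div_le_iff₀ hmR]
            nlinarith
    have h4 : (D : ℝ) * n ≤ 201 * (Real.sqrt n * L) * n :=
      mul_le_mul_of_nonneg_right hDup hn0.le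
    have h5 : (D : ℝ) ≤ D * n := by nlinarith
    calc ((D * n + n ^ 2 / m + D : ℕ) : ℝ) = D * n + ((n ^ 2 / m : ℕ) : ℝ) + D := by push_cast; rfl
      _ ≤ 4 * (D * n) := by linarith
      _ ≤ 804 * (n * Real.sqrt n * L) := by nlinarith
      _ ≤ x := hx
  refine ⟨a, ⟨?_, ?_, ?_⟩⟩
  · intro j hj hjn
    refine ⟨ha1 j hj hjn, ?_⟩
    have h1 : a j ≤ a n := by
      rcases hjn.lt_or_eq with h | h
      · exact (ha2 j n h le_rfl).le
      · rw [h]
    have h2 := ha3 n le_rfl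
    have h3 : (a j : ℝ) ≤ (((D * n + n ^ 2 / m + D : ℕ) : ℤ) : ℝ) := Int.cast_le.2 (h1.trans h2)
    rw [Int.cast_natCast] at h3
    exact h3.trans hup
  · intro i j _ hij hj
    exact ha2 i j hij hj
  · intro i j k _ hij hjk hk
    exact not_collinear (ha4 i j k hij hjk hk)

theorem main : ∃ c : ℝ, 0 < c ∧ ∀ x : ℝ, 2 ≤ x →
    c * (x / Real.log x) ^ (2 / 3 : ℝ) ≤ N x := by
  refine ⟨1 / 10 ^ 11, by norm_num, fun x hx => ?_⟩
  have hx0 : (0 : ℝ) < x := by linarith
  have hlog2 : (0.69 : ℝ) < Real.log 2 := by have := Real.log_two_gt_d9; linarith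
  have hlogx : Real.log 2 ≤ Real.log x := Real.log_le_log (by norm_num) hx
  have hlx : (0.69 : ℝ) < Real.log x := by linarith
  have hlx0 : 0 < Real.log x := by linarith
  set q := x / Real.log x with hq
  have hq0 : 0 < q := by positivity
  set P := q ^ (2 / 3 : ℝ) with hP
  have hP0 : 0 < P := Real.rpow_pos_of_pos hq0 _
  set n := ⌊P / 256⌋₊ with hn
  have hnP : (n : ℝ) ≤ P / 256 := Nat.floor_le (by positivity)
  have hnP' : P / 256 < n + 1 := Nat.lt_floor_add_one _
  rcases lt_or_ge n (10 ^ 8) with hsmall | hbig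
  · have h1 : (1 : ℝ) ≤ N x := by exact_mod_cast one_le_N (by linarith : (1 : ℝ) ≤ x)
    have h2 : (n : ℝ) + 1 ≤ 10 ^ 8 := by exact_mod_cast hsmall
    have h3 : 1 / 10 ^ 11 * P ≤ 1 := by
      have : P < 256 * 10 ^ 8 := by linarith
      have : (1 : ℝ) / 10 ^ 11 * P ≤ 1 / 10 ^ 11 * (256 * 10 ^ 8) :=
        mul_le_mul_of_nonneg_left this.le (by norm_num)
      norm_num at this ⊢
      linarith
    linarith
  · have hnR : (10 : ℝ) ^ 8 ≤ n := by exact_mod_cast hbig
    have hn0 : (0 : ℝ) < n := by linarith [pow_pos (show (0 : ℝ) < 10 by norm_num) 8]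
    -- `n √n ≤ q / 4096`
    have h1 : (n : ℝ) * Real.sqrt n ≤ q / 4096 := by
      have h2 : (n : ℝ) * Real.sqrt n = (n : ℝ) ^ (3 / 2 : ℝ) := by
        rw [Real.sqrt_eq_rpow]
        nth_rewrite 1 [← Real.rpow_one (n : ℝ)]
        rw [← Real.rpow_add hn0]
        norm_num
      rw [h2]
      have h3 : (n : ℝ) ^ (3 / 2 : ℝ) ≤ (P / 256) ^ (3 / 2 : ℝ) :=
        Real.rpow_le_rpow hn0.le hnP (by norm_num)
      refine h3.trans (le_of_eq ?_)
      rw [Real.div_rpow hP0.le (by norm_num), hP, ← Real.rpow_mul hq0.le]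
      have e1 : (2 / 3 : ℝ) * (3 / 2) = 1 := by norm_num
      have e2 : (256 : ℝ) ^ (3 / 2 : ℝ) = 4096 := by
        have : (256 : ℝ) = 16 ^ (2 : ℝ) := by norm_num
        rw [this, ← Real.rpow_mul (by norm_num)]
        norm_num
      rw [e1, e2, Real.rpow_one]
    -- `log n ≤ log x`
    have h4 : (n : ℝ) ≤ x := by
      have h5 : q ≤ 2 * x := by
        rw [hq, div_le_iff₀ hlx0]
        nlinarith
      have h6 : (1 : ℝ) ≤ Real.sqrt n := by
        rw [Real.one_le_sqrt]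
        linarith [pow_pos (show (0 : ℝ) < 10 by norm_num) 8]
      nlinarith
    have h7 : Real.log n ≤ Real.log x := Real.log_le_log hn0 h4
    have h8 : 804 * ((n : ℝ) * Real.sqrt n * (1 + Real.log n)) ≤ x := by
      have h9 : 1 + Real.log n ≤ 3 * Real.log x := by linarith
      have h10 : 0 ≤ (n : ℝ) * Real.sqrt n := by positivity
      have h11 : (n : ℝ) * Real.sqrt n * (1 + Real.log n) ≤ q / 4096 * (3 * Real.log x) := by
        calc (n : ℝ) * Real.sqrt n * (1 + Real.log n) ≤ (n : ℝ) * Real.sqrt n * (3 * Real.log x) :=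
              mul_le_mul_of_nonneg_left h9 h10
          _ ≤ q / 4096 * (3 * Real.log x) := mul_le_mul_of_nonneg_right h1 (by positivity)
      have h12 : q * Real.log x = x := by rw [hq]; field_simp
      nlinarith
    obtain ⟨a, ha⟩ := exists_valid hbig h8
    have h13 : (n : ℝ) ≤ N x := by exact_mod_cast le_N ha
    have h14 : 1 / 10 ^ 11 * P ≤ n := by
      have : P < 256 * (2 * n) := by
        have : (1 : ℝ) ≤ n := by linarith [pow_pos (show (0 : ℝ) < 10 by norm_num) 8]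
        linarith
      have h15 : (1 : ℝ) / 10 ^ 11 * P ≤ 1 / 10 ^ 11 * (256 * (2 * n)) :=
        mul_le_mul_of_nonneg_left this.le (by norm_num)
      have h16 : (1 : ℝ) / 10 ^ 11 * (256 * (2 * n)) ≤ n := by
        have : (1 : ℝ) / 10 ^ 11 * (256 * (2 * n)) = (512 / 10 ^ 11) * n := by ring
        rw [this]
        have : (512 / 10 ^ 11 : ℝ) ≤ 1 := by norm_num
        nlinarith
      linarith
    linarith

/-- `N x ≥ c (x / log x) ^ (2/3)` for all `x ≥ 2`, with an absolute constant `c > 0`. -/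
theorem result : ∃ c : ℝ, 0 < c ∧ ∀ x : ℝ, 2 ≤ x →
    c * (x / Real.log x) ^ (2 / 3 : ℝ) ≤ N x := main

end Pool.Agent.Results.MP_6d8139_co.TwoThirds
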